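import Pool.Agent.Helper89.TQ.Ctx

set_option autoImplicit false
set_option linter.all false

namespace Pool.Agent.Helper86.TQ

open Pool.Agent.Helper89.TQ

theorem c0_11_11_33_k1 {n1 n2 n3 A1 A2 A3 B1 B2 B3 m11_1 m11_2 m11_3 m13_1 m13_2 m13_3 m22_1 m22_2 m22_3 m23_1 m23_2 m23_3 m33_1 m33_2 m33_3 : ℤ}
    (C : Ctx0 n1 n2 n3 A1 A2 A3 B1 B2 B3 m11_1 m11_2 m11_3 m13_1 m13_2 m13_3 m22_1 m22_2 m22_3 m23_1 m23_2 m23_3 m33_1 m33_2 m33_3)
    (e0 : 0 < B1)
    (e1 : 0 < A3)
    (s1 : 1 * A1 + 2 * B1 ≤ m11_1 + m11_1 + m33_1)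
    (s2 : 1 * A2 + 2 * B2 ≤ m11_2 + m11_2 + m33_2)
    (s3 : 1 * A3 + 2 * B3 ≤ m11_3 + m11_3 + m33_3) : False := by
  have b_a2 : A1 ≤ A2 := by have h := C.a2; clear C; omega
  have b_a3 : A2 ≤ A1 + n2 := by have h := C.a3; clear C; omega
  have b_a4 : A2 ≤ A3 := by have h := C.a4; clear C; omega
  have b_b2 : B1 ≤ B2 := by have h := C.b2; clear C; omega
  have b_b3 : B2 ≤ B1 + n2 := by have h := C.b3; clear C; omega
  have b_b5 : B3 ≤ B2 + n3 := by have h := C.b5; clear C; omega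
  have b_o0 : B1 + 1 ≤ A1 := by have h := C.o0; clear C; omega
  have b_o1 : B2 ≤ A2 := by have h := C.o1; clear C; omega
  have b_o2 : A3 + 1 ≤ B3 := by have h := C.o2; clear C; omega
  have b_f11_0 : m11_1 + 1 = B1 := by have h := C.f11_0; clear C; omega
  have b_f11_1 : m11_2 = m11_1 + n2 := by have h := C.f11_1; clear C; omega
  have b_f11_2 : m11_3 = m11_2 + n3 := by have h := C.f11_2; clear C; omega
  have b_f13_0 : m13_1 + 1 ≤ A1 := by have h := C.f13_0; clear C; omega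
  have b_f13_3 : m13_2 ≤ m13_1 + n2 := by have h := C.f13_3; clear C; omega
  have b_f13_7 : m13_3 + 1 ≤ B3 := by have h := C.f13_7; clear C; omega
  have b_f22_1 : m22_1 + 1 ≤ B2 := by have h := C.f22_1; clear C; omega
  have b_f22_4 : m22_2 + 1 ≤ B2 := by have h := C.f22_4; clear C; omega
  have b_f22_6 : m22_3 = m22_2 + n3 := by have h := C.f22_6; clear C; omega
  have b_f23_1 : m23_1 + 1 ≤ A2 := by have h := C.f23_1; clear C; omega
  have b_f23_5 : m23_2 + 1 ≤ A2 := by have h := C.f23_5; clear C; omega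
  have b_f23_9 : m23_3 + 1 ≤ B3 := by have h := C.f23_9; clear C; omega
  have b_f33_0 : m33_1 ≤ n1 := by have h := C.f33_0; clear C; omega
  have b_f33_1 : m33_1 + 1 ≤ A3 := by have h := C.f33_1; clear C; omega
  have b_f33_4 : m33_2 + 1 ≤ A3 := by have h := C.f33_4; clear C; omega
  have b_f33_7 : m33_3 + 1 ≤ A3 := by have h := C.f33_7; clear C; omega
  have d_t12 : (1 ≤ A1 ∧ A2 + 1 ≤ A1 + n2) ∨ (1 ≤ B1 ∧ B2 + 1 ≤ B1 + n2) := by have h := C.t12; clear C; omega
  have d_t23 : (A1 + 1 ≤ A2 ∧ A3 + 1 ≤ A2 + n3) ∨ (B1 + 1 ≤ B2 ∧ B3 + 1 ≤ B2 + n3) := by have h := C.t23; clear C; omega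
  have d_f13_2 : (m13_1 + 1 = A1) ∨ (m13_1 + 1 = B3) := by have h := C.f13_2; clear C; omega
  have d_f13_5 : (m13_2 = m13_1 + n2) ∨ (m13_2 + 1 = B3) := by have h := C.f13_5; clear C; omega
  have d_f13_8 : (m13_3 = m13_2 + n3) ∨ (m13_3 + 1 = B3) := by have h := C.f13_8; clear C; omega
  have d_f22_2 : (m22_1 = n1) ∨ (m22_1 + 1 = B2) := by have h := C.f22_2; clear C; omega
  have d_f22_5 : (m22_2 = m22_1 + n2) ∨ (m22_2 + 1 = B2) := by have h := C.f22_5; clear C; omega
  have d_f23_3 : (m23_1 = n1) ∨ (m23_1 + 1 = A2) ∨ (m23_1 + 1 = B3) := by have h := C.f23_3; clear C; omega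
  have d_f23_7 : (m23_2 = m23_1 + n2) ∨ (m23_2 + 1 = A2) ∨ (m23_2 + 1 = B3) := by have h := C.f23_7; clear C; omega
  have d_f23_10 : (m23_3 = m23_2 + n3) ∨ (m23_3 + 1 = B3) := by have h := C.f23_10; clear C; omega
  have d_f33_5 : (m33_2 = m33_1 + n2) ∨ (m33_2 + 1 = A3) := by have h := C.f33_5; clear C; omega
  have d_f33_8 : (m33_3 = m33_2 + n3) ∨ (m33_3 + 1 = A3) := by have h := C.f33_8; clear C; omega
  have d_p11_13B : (B1 ≤ 0) ∨ (A1 ≤ 0) ∨ (B3 ≤ 0) ∨ (m11_1 + m13_1 + 1 ≤ 2 * B1) ∨ (m11_2 + m13_2 + 1 ≤ 2 * B2) ∨ (m11_3 + m13_3 + 1 ≤ 2 * B3) := by have h := C.p11_13B; clear C; omega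
  have d_p11_22B : (B1 ≤ 0) ∨ (B2 ≤ 0) ∨ (m11_1 + m22_1 + 1 ≤ 2 * B1) ∨ (m11_2 + m22_2 + 1 ≤ 2 * B2) ∨ (m11_3 + m22_3 + 1 ≤ 2 * B3) := by have h := C.p11_22B; clear C; omega
  have d_p11_23B : (B1 ≤ 0) ∨ (A2 ≤ 0) ∨ (B3 ≤ 0) ∨ (m11_1 + m23_1 + 1 ≤ 2 * B1) ∨ (m11_2 + m23_2 + 1 ≤ 2 * B2) ∨ (m11_3 + m23_3 + 1 ≤ 2 * B3) := by have h := C.p11_23B; clear C; omega
  have d_p11_33A : (B1 ≤ 0) ∨ (A3 ≤ 0) ∨ (m11_1 + m33_1 + 1 ≤ 2 * A1) ∨ (m11_2 + m33_2 + 1 ≤ 2 * A2) ∨ (m11_3 + m33_3 + 1 ≤ 2 * A3) := by have h := C.p11_33A; clear C; omega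
  have d_p11_33B : (B1 ≤ 0) ∨ (A3 ≤ 0) ∨ (m11_1 + m33_1 + 1 ≤ 2 * B1) ∨ (m11_2 + m33_2 + 1 ≤ 2 * B2) ∨ (m11_3 + m33_3 + 1 ≤ 2 * B3) := by have h := C.p11_33B; clear C; omega
  have d_tmzp : (n1 ≤ A1) ∨ (A2 ≤ A1) ∨ (A3 ≤ A2) ∨ (B1 ≤ 0) ∨ (B1 + n2 ≤ B2) ∨ (B2 + n3 ≤ B3) := by have h := C.tmzp; clear C; omega
  have d_tmpp : (n1 ≤ A1) ∨ (A2 ≤ A1 + 1) ∨ (B1 ≤ 0) ∨ (B1 + n2 ≤ B2 + 1) := by have h := C.tmpp; clear C; omega
  have d_tzmp : (A1 + n2 ≤ A2) ∨ (A3 ≤ A2 + 1) ∨ (B2 ≤ B1) ∨ (B2 + n3 ≤ B3 + 1) := by have h := C.tzmp; clear C; omega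
  have d_tpmz : (A1 ≤ 0) ∨ (A1 + n2 ≤ A2 + 1) ∨ (A3 ≤ A2) ∨ (n1 ≤ B1) ∨ (B2 ≤ B1 + 1) ∨ (B2 + n3 ≤ B3) := by have h := C.tpmz; clear C; omega
  clear C
  rcases d_f13_2 with r_f13_2_0_0 | r_f13_2_1_0
  · rcases d_tmpp with r_tmpp_0_0 | r_tmpp_1_0 | r_tmpp_2_0 | r_tmpp_3_0
    · linarith only [r_tmpp_0_0, s1, b_f11_0, b_f33_0]
    · rcases d_f22_2 with r_f22_2_0_0 | r_f22_2_1_0
      · linarith only [r_f22_2_0_0, s1, r_tmpp_1_0, b_f11_0, b_f22_1, b_f33_0, b_o1]
      · rcases d_f23_3 with r_f23_3_0_0 | r_f23_3_1_0 | r_f23_3_2_0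
        · linarith only [r_f23_3_0_0, s1, r_tmpp_1_0, b_f11_0, b_f23_1, b_f33_0]
        · rcases d_f23_7 with r_f23_7_0_0 | r_f23_7_1_0 | r_f23_7_2_0
          · rcases d_t12 with ⟨r_t12_0_0, r_t12_0_1⟩ | ⟨r_t12_1_0, r_t12_1_1⟩
            · linarith only [r_f23_7_0_0, b_f23_5, r_t12_0_1, r_f23_3_1_0, b_a2]
            · linarith only [r_f23_7_0_0, r_t12_1_1, b_f23_5, r_f23_3_1_0, b_b2]
          · rcases d_tzmp with r_tzmp_0_0 | r_tzmp_1_0 | r_tzmp_2_0 | r_tzmp_3_0
            · rcases d_t12 with ⟨r_t12_0_0, r_t12_0_1⟩ | ⟨r_t12_1_0, r_t12_1_1⟩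
              · linarith only [r_tzmp_0_0, r_t12_0_1]
              · rcases d_tmzp with r_tmzp_0_0 | r_tmzp_1_0 | r_tmzp_2_0 | r_tmzp_3_0 | r_tmzp_4_0 | r_tmzp_5_0
                · linarith only [r_tmzp_0_0, s1, b_f11_0, b_f33_0]
                · linarith only [r_tzmp_0_0, r_tmzp_1_0, r_t12_1_1, b_b2]
                · linarith only [s1, r_tmpp_1_0, b_f11_0, b_f33_1, r_tmzp_2_0]
                · linarith only [r_tmzp_3_0, e0]
                · linarith only [r_t12_1_1, r_tmzp_4_0]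
                · linarith only [r_tzmp_0_0, b_b2, r_tmpp_1_0, r_tmzp_5_0, s3, b_f11_0, b_f11_1, b_f33_7, b_f11_2]
            · linarith only [s1, r_tmpp_1_0, b_f11_0, b_f33_1, r_tzmp_1_0]
            · rcases d_t23 with ⟨r_t23_0_0, r_t23_0_1⟩ | ⟨r_t23_1_0, r_t23_1_1⟩
              · rcases d_p11_23B with r_p11_23B_0_0 | r_p11_23B_1_0 | r_p11_23B_2_0 | r_p11_23B_3_0 | r_p11_23B_4_0 | r_p11_23B_5_0
                · linarith only [r_p11_23B_0_0, e0]
                · linarith only [r_t23_0_0, r_p11_23B_1_0, b_o0, e0]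
                · linarith only [s1, b_o2, b_o0, r_p11_23B_2_0, b_f11_0, b_f33_1, e0]
                · linarith only [r_t23_0_0, r_f23_3_1_0, b_o0, r_p11_23B_3_0, b_f11_0]
                · linarith only [r_f23_7_1_0, r_t23_0_0, b_f11_1, b_o0, r_tzmp_2_0, b_a3, r_p11_23B_4_0, b_f11_0]
                · rcases d_f23_10 with r_f23_10_0_0 | r_f23_10_1_0
                  · linarith only [s3, b_o0, r_tzmp_2_0, b_b5, r_p11_23B_5_0, r_f23_7_1_0, r_f23_10_0_0, r_t23_0_0, b_f33_7]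
                  · linarith only [s3, r_p11_23B_5_0, b_f33_7, r_f23_10_1_0]
              · linarith only [r_tzmp_2_0, r_t23_1_0]
            · rcases d_f22_5 with r_f22_5_0_0 | r_f22_5_1_0
              · linarith only [r_f22_5_0_0, b_b2, r_tzmp_3_0, s3, b_f11_0, b_f11_1, b_f22_4, r_f22_2_1_0, b_f33_7, b_f11_2]
              · rcases d_tmzp with r_tmzp_0_0 | r_tmzp_1_0 | r_tmzp_2_0 | r_tmzp_3_0 | r_tmzp_4_0 | r_tmzp_5_0
                · linarith only [r_tmzp_0_0, s1, b_f11_0, b_f33_0]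
                · rcases d_t23 with ⟨r_t23_0_0, r_t23_0_1⟩ | ⟨r_t23_1_0, r_t23_1_1⟩
                  · linarith only [r_tmzp_1_0, r_t23_0_0]
                  · rcases d_f23_10 with r_f23_10_0_0 | r_f23_10_1_0
                    · linarith only [b_o1, r_f23_7_1_0, r_f23_10_0_0, b_f23_9, r_t23_1_1]
                    · rcases d_tpmz with r_tpmz_0_0 | r_tpmz_1_0 | r_tpmz_2_0 | r_tpmz_3_0 | r_tpmz_4_0 | r_tpmz_5_0
                      · linarith only [r_tpmz_0_0, b_o0, e0]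
                      · linarith only [r_tpmz_1_0, b_f11_1, r_tmzp_1_0, b_f11_2, s3, b_f11_0, r_tzmp_3_0, b_f33_7, r_t23_1_0]
                      · linarith only [s1, r_tmzp_1_0, r_tpmz_2_0, b_f11_0, b_f33_1]
                      · linarith only [r_tpmz_3_0, s1, b_o0, b_f11_0, b_f33_0]
                      · rcases d_p11_33A with r_p11_33A_0_0 | r_p11_33A_1_0 | r_p11_33A_2_0 | r_p11_33A_3_0 | r_p11_33A_4_0
                        · linarith only [r_p11_33A_0_0, e0]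
                        · linarith only [s1, r_p11_33A_1_0, b_o0, b_f11_0, b_f33_1, e0]
                        · rcases d_p11_23B with r_p11_23B_0_0 | r_p11_23B_1_0 | r_p11_23B_2_0 | r_p11_23B_3_0 | r_p11_23B_4_0 | r_p11_23B_5_0
                          · linarith only [r_p11_23B_0_0, e0]
                          · linarith only [b_a2, r_p11_23B_1_0, b_o0, e0]
                          · linarith only [s1, b_o2, b_o0, r_p11_23B_2_0, b_f11_0, b_f33_1, e0]
                          · linarith only [r_f23_3_1_0, r_p11_33A_2_0, r_p11_23B_3_0, s1, b_a2]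
                          · linarith only [r_p11_23B_4_0, s1, b_f11_2, r_p11_33A_2_0, r_tpmz_4_0, s3, b_f11_0, r_f23_7_1_0, r_tzmp_3_0, b_f33_7, b_a2]
                          · linarith only [s3, r_p11_23B_5_0, b_f33_7, r_f23_10_1_0]
                        · rcases d_p11_23B with r_p11_23B_0_0 | r_p11_23B_1_0 | r_p11_23B_2_0 | r_p11_23B_3_0 | r_p11_23B_4_0 | r_p11_23B_5_0
                          · linarith only [r_p11_23B_0_0, e0]
                          · linarith only [b_a2, r_p11_23B_1_0, b_o0, e0]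
                          · linarith only [s1, b_o2, b_o0, r_p11_23B_2_0, b_f11_0, b_f33_1, e0]
                          · rcases d_f33_5 with r_f33_5_0_0 | r_f33_5_1_0
                            · linarith only [r_f33_5_0_0, b_f11_1, s2, b_o0, r_p11_33A_3_0, r_p11_23B_3_0, s1, r_t23_1_0, r_f23_3_1_0, b_f11_0]
                            · linarith only [r_t23_1_0, r_f33_5_1_0, r_f23_3_1_0, b_o0, s2, r_p11_23B_3_0, r_p11_33A_3_0, s1, b_f33_1, b_f11_0]
                          · linarith only [s2, r_p11_33A_3_0, r_p11_23B_4_0, r_f23_7_1_0]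
                          · linarith only [r_p11_23B_5_0, b_f33_7, r_f23_10_1_0, s3]
                        · rcases d_f33_8 with r_f33_8_0_0 | r_f33_8_1_0
                          · rcases d_f33_5 with r_f33_5_0_0 | r_f33_5_1_0
                            · linarith only [r_f33_5_0_0, r_f33_8_0_0, s1, s2, b_o2, b_o0, r_t23_1_1, b_f11_0, b_f11_1, r_p11_33A_4_0, s3, b_o1]
                            · linarith only [b_f11_2, s1, r_tmzp_1_0, b_o2, b_o1, r_t23_1_1, b_f11_0, r_p11_33A_4_0, r_f33_8_0_0, s2, r_f33_5_1_0, b_f33_1]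
                          · linarith only [b_o2, r_p11_33A_4_0, s3, r_f33_8_1_0]
                      · linarith only [r_tpmz_5_0, r_t23_1_1]
                · linarith only [s1, r_tmpp_1_0, b_f11_0, b_f33_1, r_tmzp_2_0]
                · linarith only [r_tmzp_3_0, e0]
                · linarith only [r_tmzp_4_0, b_f11_1, s3, b_f11_0, r_tzmp_3_0, b_f33_7, b_f11_2]
                · rcases d_p11_22B with r_p11_22B_0_0 | r_p11_22B_1_0 | r_p11_22B_2_0 | r_p11_22B_3_0 | r_p11_22B_4_0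
                  · linarith only [r_p11_22B_0_0, e0]
                  · linarith only [b_b2, r_p11_22B_1_0, e0]
                  · rcases d_t23 with ⟨r_t23_0_0, r_t23_0_1⟩ | ⟨r_t23_1_0, r_t23_1_1⟩
                    · rcases d_p11_23B with r_p11_23B_0_0 | r_p11_23B_1_0 | r_p11_23B_2_0 | r_p11_23B_3_0 | r_p11_23B_4_0 | r_p11_23B_5_0
                      · linarith only [r_p11_23B_0_0, e0]
                      · linarith only [r_t23_0_0, r_p11_23B_1_0, b_o0, e0]
                      · linarith only [r_t23_0_0, b_o2, b_o0, r_p11_23B_2_0, b_a4, e0]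
                      · linarith only [r_t23_0_0, r_f23_3_1_0, b_o0, r_p11_23B_3_0, b_f11_0]
                      · linarith only [r_f23_7_1_0, r_t23_0_0, r_tmzp_5_0, b_o0, r_f22_2_1_0, s3, r_p11_22B_2_0, r_p11_23B_4_0, b_f11_2, b_f33_7, b_f11_0]
                      · rcases d_f23_10 with r_f23_10_0_0 | r_f23_10_1_0
                        · linarith only [r_t23_0_0, r_f23_7_1_0, b_o0, r_f22_2_1_0, s3, r_p11_22B_2_0, r_f23_10_0_0, b_b5, r_p11_23B_5_0, b_f33_7, b_f11_0]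
                        · linarith only [s3, r_p11_23B_5_0, b_f33_7, r_f23_10_1_0]
                    · linarith only [r_t23_1_1, r_tmzp_5_0]
                  · linarith only [r_p11_22B_3_0, r_tmzp_5_0, s3, b_f11_2, b_f33_7, r_f22_5_1_0]
                  · linarith only [r_f22_5_1_0, s3, b_f22_6, r_p11_22B_4_0, b_f33_7, b_b5]
          · linarith only [s1, r_tmpp_1_0, b_o2, b_f11_0, b_f23_5, b_f33_1, r_f23_7_2_0]
        · linarith only [s1, r_tmpp_1_0, b_o2, b_f11_0, b_f23_1, b_f33_1, r_f23_3_2_0]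
    · linarith only [r_tmpp_2_0, e0]
    · rcases d_f33_8 with r_f33_8_0_0 | r_f33_8_1_0
      · linarith only [r_tmpp_3_0, b_o2, b_o1, b_f11_0, s2, b_b5, r_f33_8_0_0, b_f33_7, b_f11_1]
      · rcases d_p11_33B with r_p11_33B_0_0 | r_p11_33B_1_0 | r_p11_33B_2_0 | r_p11_33B_3_0 | r_p11_33B_4_0
        · linarith only [r_p11_33B_0_0, e0]
        · linarith only [s1, r_p11_33B_1_0, b_o0, b_f11_0, b_f33_1, e0]
        · linarith only [b_o0, r_p11_33B_2_0, s1, b_f11_0]
        · linarith only [r_tmpp_3_0, b_f11_1, s2, b_f11_0, r_p11_33B_3_0, b_o1]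
        · rcases d_tmzp with r_tmzp_0_0 | r_tmzp_1_0 | r_tmzp_2_0 | r_tmzp_3_0 | r_tmzp_4_0 | r_tmzp_5_0
          · linarith only [r_tmzp_0_0, s1, b_f11_0, b_f33_0]
          · rcases d_t23 with ⟨r_t23_0_0, r_t23_0_1⟩ | ⟨r_t23_1_0, r_t23_1_1⟩
            · linarith only [r_tmzp_1_0, r_t23_0_0]
            · rcases d_tzmp with r_tzmp_0_0 | r_tzmp_1_0 | r_tzmp_2_0 | r_tzmp_3_0
              · linarith only [r_tzmp_0_0, r_t23_1_0, r_tmzp_1_0, b_b3]
              · linarith only [s1, r_tmzp_1_0, b_f11_0, b_f33_1, r_tzmp_1_0]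
              · linarith only [r_tzmp_2_0, r_t23_1_0]
              · rcases d_f22_2 with r_f22_2_0_0 | r_f22_2_1_0
                · linarith only [r_f22_2_0_0, s1, r_tmzp_1_0, b_f11_0, b_f22_1, b_f33_0, b_o1]
                · rcases d_f22_5 with r_f22_5_0_0 | r_f22_5_1_0
                  · linarith only [r_f22_5_0_0, r_t23_1_0, r_tzmp_3_0, s3, b_f11_0, b_f11_1, b_f22_4, r_f22_2_1_0, b_f33_7, b_f11_2]
                  · rcases d_f23_3 with r_f23_3_0_0 | r_f23_3_1_0 | r_f23_3_2_0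
                    · linarith only [r_f23_3_0_0, s1, r_tmzp_1_0, b_f11_0, b_f23_1, b_f33_0]
                    · rcases d_f23_7 with r_f23_7_0_0 | r_f23_7_1_0 | r_f23_7_2_0
                      · linarith only [r_f23_7_0_0, r_tzmp_3_0, b_f23_5, s3, b_f11_0, b_f11_1, r_f23_3_1_0, r_t23_1_0, b_f33_7, b_f11_2]
                      · rcases d_f23_10 with r_f23_10_0_0 | r_f23_10_1_0
                        · linarith only [b_o1, r_f23_7_1_0, r_f23_10_0_0, b_f23_9, r_t23_1_1]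
                        · rcases d_tpmz with r_tpmz_0_0 | r_tpmz_1_0 | r_tpmz_2_0 | r_tpmz_3_0 | r_tpmz_4_0 | r_tpmz_5_0
                          · linarith only [r_tpmz_0_0, b_o0, e0]
                          · linarith only [r_tpmz_1_0, b_f11_1, r_tmzp_1_0, b_f11_2, s3, b_f11_0, r_tzmp_3_0, b_f33_7, r_t23_1_0]
                          · linarith only [s1, r_tmzp_1_0, r_tpmz_2_0, b_f11_0, b_f33_1]
                          · linarith only [r_tpmz_3_0, s1, b_o0, b_f11_0, b_f33_0]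
                          · rcases d_f13_5 with r_f13_5_0_0 | r_f13_5_1_0
                            · rcases d_f13_8 with r_f13_8_0_0 | r_f13_8_1_0
                              · linarith only [r_f13_5_0_0, r_f13_2_0_0, r_f13_8_0_0, b_o0, s3, b_f11_0, b_f11_1, b_f13_7, b_f33_7, b_f11_2]
                              · rcases d_p11_13B with r_p11_13B_0_0 | r_p11_13B_1_0 | r_p11_13B_2_0 | r_p11_13B_3_0 | r_p11_13B_4_0 | r_p11_13B_5_0
                                · linarith only [r_p11_13B_0_0, e0]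
                                · linarith only [r_p11_13B_1_0, b_o0, e0]
                                · linarith only [s1, s3, b_o0, r_p11_13B_2_0, b_f11_0, r_p11_33B_4_0, r_f33_8_1_0, b_f33_1, e0]
                                · rcases d_p11_33A with r_p11_33A_0_0 | r_p11_33A_1_0 | r_p11_33A_2_0 | r_p11_33A_3_0 | r_p11_33A_4_0
                                  · linarith only [r_p11_33A_0_0, e0]
                                  · linarith only [b_f11_0, r_p11_33A_1_0, b_o0, s1, b_f33_1, e0]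
                                  · linarith only [r_p11_33A_2_0, r_p11_13B_3_0, s1, r_f13_2_0_0]
                                  · linarith only [r_t23_1_0, r_tmzp_1_0, r_tmpp_3_0, s2, r_p11_13B_3_0, r_p11_33A_3_0, b_f11_1, r_f13_2_0_0]
                                  · linarith only [b_o2, r_p11_33A_4_0, s3, r_f33_8_1_0]
                                · linarith only [r_f13_5_0_0, r_tzmp_3_0, b_o0, s3, b_f11_0, b_f11_1, r_p11_13B_4_0, r_f13_2_0_0, b_f33_7, b_f11_2]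
                                · linarith only [s3, r_p11_13B_5_0, b_f33_7, r_f13_8_1_0]
                            · linarith only [b_f11_1, b_f11_2, s1, r_t23_1_1, r_tpmz_4_0, b_f11_0, b_f13_0, b_f13_3, r_f13_5_1_0, b_f33_1, r_p11_33B_4_0, r_f33_8_1_0]
                          · linarith only [r_tpmz_5_0, r_t23_1_1]
                      · linarith only [s1, r_tmzp_1_0, s3, r_f23_7_2_0, b_f11_0, r_p11_33B_4_0, b_f23_5, b_f33_1, r_f33_8_1_0]
                    · linarith only [s1, r_tmzp_1_0, s3, r_f23_3_2_0, b_f11_0, r_p11_33B_4_0, b_f23_1, b_f33_1, r_f33_8_1_0]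
          · linarith only [r_tmpp_3_0, b_f33_4, r_tmzp_2_0, b_f11_0, s2, b_f11_1]
          · linarith only [r_tmzp_3_0, e0]
          · rcases d_t12 with ⟨r_t12_0_0, r_t12_0_1⟩ | ⟨r_t12_1_0, r_t12_1_1⟩
            · rcases d_tzmp with r_tzmp_0_0 | r_tzmp_1_0 | r_tzmp_2_0 | r_tzmp_3_0
              · linarith only [r_tzmp_0_0, r_t12_0_1]
              · linarith only [r_tmzp_4_0, s2, b_f11_0, b_f11_1, b_f33_4, r_tzmp_1_0]
              · linarith only [r_t12_0_1, r_tzmp_2_0, r_tmzp_4_0, b_a2]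
              · linarith only [r_tmzp_4_0, r_tzmp_3_0, s3, b_f11_0, b_f11_1, b_f33_7, b_f11_2]
            · linarith only [r_tmzp_4_0, r_t12_1_1]
          · linarith only [r_tmpp_3_0, s3, b_f11_0, b_f11_1, b_f11_2, b_f33_7, r_tmzp_5_0]
  · linarith only [s1, b_o2, r_f13_2_1_0, b_f11_0, b_f13_0, b_f33_1]

end Pool.Agent.Helper86.TQ
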