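import Pool.Agent.Helper89.TQ.Ctx

set_option autoImplicit false
set_option linter.all false

namespace Pool.Agent.Helper86.TQ

open Pool.Agent.Helper89.TQ

theorem c0_11_13_23_k3 {n1 n2 n3 A1 A2 A3 B1 B2 B3 m11_1 m11_2 m11_3 m13_1 m13_2 m13_3 m22_1 m22_2 m22_3 m23_1 m23_2 m23_3 m33_1 m33_2 m33_3 : ℤ}
    (C : Ctx0 n1 n2 n3 A1 A2 A3 B1 B2 B3 m11_1 m11_2 m11_3 m13_1 m13_2 m13_3 m22_1 m22_2 m22_3 m23_1 m23_2 m23_3 m33_1 m33_2 m33_3)
    (e0 : 0 < B1)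
    (e1 : 0 < A1)
    (e2 : 0 < B3)
    (e3 : 0 < A2)
    (s1 : 3 * A1 + 0 * B1 ≤ m11_1 + m13_1 + m23_1)
    (s2 : 3 * A2 + 0 * B2 ≤ m11_2 + m13_2 + m23_2)
    (s3 : 3 * A3 + 0 * B3 ≤ m11_3 + m13_3 + m23_3) : False := by
  have b_a4 : A2 ≤ A3 := by have h := C.a4; clear C; omega
  have b_b5 : B3 ≤ B2 + n3 := by have h := C.b5; clear C; omega
  have b_o0 : B1 + 1 ≤ A1 := by have h := C.o0; clear C; omega
  have b_o1 : B2 ≤ A2 := by have h := C.o1; clear C; omega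
  have b_o2 : A3 + 1 ≤ B3 := by have h := C.o2; clear C; omega
  have b_f11_0 : m11_1 + 1 = B1 := by have h := C.f11_0; clear C; omega
  have b_f11_1 : m11_2 = m11_1 + n2 := by have h := C.f11_1; clear C; omega
  have b_f13_0 : m13_1 + 1 ≤ A1 := by have h := C.f13_0; clear C; omega
  have b_f13_1 : m13_1 + 1 ≤ B3 := by have h := C.f13_1; clear C; omega
  have b_f13_3 : m13_2 ≤ m13_1 + n2 := by have h := C.f13_3; clear C; omega
  have b_f13_7 : m13_3 + 1 ≤ B3 := by have h := C.f13_7; clear C; omega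
  have b_f23_0 : m23_1 ≤ n1 := by have h := C.f23_0; clear C; omega
  have b_f23_1 : m23_1 + 1 ≤ A2 := by have h := C.f23_1; clear C; omega
  have b_f23_5 : m23_2 + 1 ≤ A2 := by have h := C.f23_5; clear C; omega
  have d_f13_2 : (m13_1 + 1 = A1) ∨ (m13_1 + 1 = B3) := by have h := C.f13_2; clear C; omega
  have d_f13_8 : (m13_3 = m13_2 + n3) ∨ (m13_3 + 1 = B3) := by have h := C.f13_8; clear C; omega
  have d_f23_7 : (m23_2 = m23_1 + n2) ∨ (m23_2 + 1 = A2) ∨ (m23_2 + 1 = B3) := by have h := C.f23_7; clear C; omega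
  have d_f23_10 : (m23_3 = m23_2 + n3) ∨ (m23_3 + 1 = B3) := by have h := C.f23_10; clear C; omega
  have d_p13_23A : (A1 ≤ 0) ∨ (B3 ≤ 0) ∨ (A2 ≤ 0) ∨ (m13_1 + m23_1 + 1 ≤ 2 * A1) ∨ (m13_2 + m23_2 + 1 ≤ 2 * A2) ∨ (m13_3 + m23_3 + 1 ≤ 2 * A3) := by have h := C.p13_23A; clear C; omega
  have d_tmpp : (n1 ≤ A1) ∨ (A2 ≤ A1 + 1) ∨ (B1 ≤ 0) ∨ (B1 + n2 ≤ B2 + 1) := by have h := C.tmpp; clear C; omega
  clear C
  rcases d_f13_2 with r_f13_2_0_0 | r_f13_2_1_0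
  · rcases d_f23_7 with r_f23_7_0_0 | r_f23_7_1_0 | r_f23_7_2_0
    · linarith only [r_f23_7_0_0, s1, s2, b_o0, b_f11_0, b_f11_1, b_f13_0, b_f13_3, b_f23_5]
    · rcases d_tmpp with r_tmpp_0_0 | r_tmpp_1_0 | r_tmpp_2_0 | r_tmpp_3_0
      · linarith only [r_tmpp_0_0, s1, b_o0, b_f11_0, b_f13_0, b_f23_0]
      · linarith only [s1, r_tmpp_1_0, b_o0, b_f11_0, b_f13_0, b_f23_1]
      · linarith only [r_tmpp_2_0, e0]
      · rcases d_p13_23A with r_p13_23A_0_0 | r_p13_23A_1_0 | r_p13_23A_2_0 | r_p13_23A_3_0 | r_p13_23A_4_0 | r_p13_23A_5_0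
        · linarith only [r_p13_23A_0_0, b_o0, e0]
        · linarith only [s1, b_a4, b_o2, b_o0, r_p13_23A_1_0, b_f11_0, b_f13_1, b_f23_1, e0]
        · linarith only [s1, r_p13_23A_2_0, b_o0, b_f11_0, b_f13_0, b_f23_1, e0]
        · linarith only [s1, b_o0, b_f11_0, r_p13_23A_3_0]
        · linarith only [r_tmpp_3_0, s2, b_o1, b_f11_0, r_p13_23A_4_0, b_f11_1]
        · rcases d_f13_8 with r_f13_8_0_0 | r_f13_8_1_0
          · linarith only [r_tmpp_3_0, r_f13_8_0_0, s2, b_o1, b_b5, b_f11_0, b_f11_1, b_f23_5, b_f13_7]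
          · rcases d_f23_10 with r_f23_10_0_0 | r_f23_10_1_0
            · linarith only [r_f23_10_0_0, b_o2, b_o1, r_p13_23A_5_0, b_b5, r_f13_8_1_0, r_f23_7_1_0]
            · linarith only [b_o2, r_p13_23A_5_0, r_f13_8_1_0, r_f23_10_1_0]
    · linarith only [b_o2, b_a4, b_f23_5, r_f23_7_2_0]
  · linarith only [s1, b_a4, b_o2, b_o0, r_f13_2_1_0, b_f11_0, b_f13_0, b_f23_1]

end Pool.Agent.Helper86.TQ
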