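import Pool.Agent.Helper89.TQ.Ctx

set_option autoImplicit false
set_option linter.all false

namespace Pool.Agent.Helper86.TQ

open Pool.Agent.Helper89.TQ

theorem c0_11_22_23_k3 {n1 n2 n3 A1 A2 A3 B1 B2 B3 m11_1 m11_2 m11_3 m13_1 m13_2 m13_3 m22_1 m22_2 m22_3 m23_1 m23_2 m23_3 m33_1 m33_2 m33_3 : ℤ}
    (C : Ctx0 n1 n2 n3 A1 A2 A3 B1 B2 B3 m11_1 m11_2 m11_3 m13_1 m13_2 m13_3 m22_1 m22_2 m22_3 m23_1 m23_2 m23_3 m33_1 m33_2 m33_3)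
    (e0 : 0 < B1)
    (e1 : 0 < B2)
    (e2 : 0 < A2)
    (e3 : 0 < B3)
    (s1 : 3 * A1 + 0 * B1 ≤ m11_1 + m22_1 + m23_1)
    (s2 : 3 * A2 + 0 * B2 ≤ m11_2 + m22_2 + m23_2)
    (s3 : 3 * A3 + 0 * B3 ≤ m11_3 + m22_3 + m23_3) : False := by
  have b_o0 : B1 + 1 ≤ A1 := by have h := C.o0; clear C; omega
  have b_o1 : B2 ≤ A2 := by have h := C.o1; clear C; omega
  have b_f11_0 : m11_1 + 1 = B1 := by have h := C.f11_0; clear C; omega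
  have b_f11_1 : m11_2 = m11_1 + n2 := by have h := C.f11_1; clear C; omega
  have b_f22_0 : m22_1 ≤ n1 := by have h := C.f22_0; clear C; omega
  have b_f22_1 : m22_1 + 1 ≤ B2 := by have h := C.f22_1; clear C; omega
  have b_f22_4 : m22_2 + 1 ≤ B2 := by have h := C.f22_4; clear C; omega
  have b_f23_0 : m23_1 ≤ n1 := by have h := C.f23_0; clear C; omega
  have b_f23_1 : m23_1 + 1 ≤ A2 := by have h := C.f23_1; clear C; omega
  have b_f23_5 : m23_2 + 1 ≤ A2 := by have h := C.f23_5; clear C; omega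
  have d_tmpp : (n1 ≤ A1) ∨ (A2 ≤ A1 + 1) ∨ (B1 ≤ 0) ∨ (B1 + n2 ≤ B2 + 1) := by have h := C.tmpp; clear C; omega
  clear C
  rcases d_tmpp with r_tmpp_0_0 | r_tmpp_1_0 | r_tmpp_2_0 | r_tmpp_3_0
  · linarith only [r_tmpp_0_0, s1, b_o0, b_f11_0, b_f22_0, b_f23_0]
  · linarith only [s1, b_o0, b_o1, b_f11_0, b_f22_1, b_f23_1, r_tmpp_1_0]
  · linarith only [r_tmpp_2_0, e0]
  · linarith only [r_tmpp_3_0, s2, b_o1, b_f11_0, b_f22_4, b_f23_5, b_f11_1]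

end Pool.Agent.Helper86.TQ
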