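import Pool.Agent.Helper89.TQ.Ctx

set_option autoImplicit false
set_option linter.all false

namespace Pool.Agent.Helper86.TQ

open Pool.Agent.Helper89.TQ

theorem c0_11_33_33_k2 {n1 n2 n3 A1 A2 A3 B1 B2 B3 m11_1 m11_2 m11_3 m13_1 m13_2 m13_3 m22_1 m22_2 m22_3 m23_1 m23_2 m23_3 m33_1 m33_2 m33_3 : ℤ}
    (C : Ctx0 n1 n2 n3 A1 A2 A3 B1 B2 B3 m11_1 m11_2 m11_3 m13_1 m13_2 m13_3 m22_1 m22_2 m22_3 m23_1 m23_2 m23_3 m33_1 m33_2 m33_3)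
    (e0 : 0 < B1)
    (e1 : 0 < A3)
    (s1 : 2 * A1 + 1 * B1 ≤ m11_1 + m33_1 + m33_1)
    (s2 : 2 * A2 + 1 * B2 ≤ m11_2 + m33_2 + m33_2)
    (s3 : 2 * A3 + 1 * B3 ≤ m11_3 + m33_3 + m33_3) : False := by
  have b_a3 : A2 ≤ A1 + n2 := by have h := C.a3; clear C; omega
  have b_b2 : B1 ≤ B2 := by have h := C.b2; clear C; omega
  have b_b3 : B2 ≤ B1 + n2 := by have h := C.b3; clear C; omega
  have b_b5 : B3 ≤ B2 + n3 := by have h := C.b5; clear C; omega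
  have b_o0 : B1 + 1 ≤ A1 := by have h := C.o0; clear C; omega
  have b_o1 : B2 ≤ A2 := by have h := C.o1; clear C; omega
  have b_o2 : A3 + 1 ≤ B3 := by have h := C.o2; clear C; omega
  have b_f11_0 : m11_1 + 1 = B1 := by have h := C.f11_0; clear C; omega
  have b_f11_1 : m11_2 = m11_1 + n2 := by have h := C.f11_1; clear C; omega
  have b_f11_2 : m11_3 = m11_2 + n3 := by have h := C.f11_2; clear C; omega
  have b_f13_0 : m13_1 + 1 ≤ A1 := by have h := C.f13_0; clear C; omega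
  have b_f33_1 : m33_1 + 1 ≤ A3 := by have h := C.f33_1; clear C; omega
  have b_f33_4 : m33_2 + 1 ≤ A3 := by have h := C.f33_4; clear C; omega
  have b_f33_7 : m33_3 + 1 ≤ A3 := by have h := C.f33_7; clear C; omega
  have d_f13_2 : (m13_1 + 1 = A1) ∨ (m13_1 + 1 = B3) := by have h := C.f13_2; clear C; omega
  have d_f13_5 : (m13_2 = m13_1 + n2) ∨ (m13_2 + 1 = B3) := by have h := C.f13_5; clear C; omega
  have d_f13_8 : (m13_3 = m13_2 + n3) ∨ (m13_3 + 1 = B3) := by have h := C.f13_8; clear C; omega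
  have d_f33_8 : (m33_3 = m33_2 + n3) ∨ (m33_3 + 1 = A3) := by have h := C.f33_8; clear C; omega
  have d_p11_33B : (B1 ≤ 0) ∨ (A3 ≤ 0) ∨ (m11_1 + m33_1 + 1 ≤ 2 * B1) ∨ (m11_2 + m33_2 + 1 ≤ 2 * B2) ∨ (m11_3 + m33_3 + 1 ≤ 2 * B3) := by have h := C.p11_33B; clear C; omega
  have d_p13_33A : (A1 ≤ 0) ∨ (B3 ≤ 0) ∨ (A3 ≤ 0) ∨ (m13_1 + m33_1 + 1 ≤ 2 * A1) ∨ (m13_2 + m33_2 + 1 ≤ 2 * A2) ∨ (m13_3 + m33_3 + 1 ≤ 2 * A3) := by have h := C.p13_33A; clear C; omega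
  have d_tzpm : (A2 ≤ A1) ∨ (A2 + n3 ≤ A3 + 1) ∨ (B1 + n2 ≤ B2) ∨ (B3 ≤ B2 + 1) ∨ (B2 + 1 ≤ A2 ∧ B3 ≤ 1 + A3) := by have h := C.tzpm; clear C; omega
  clear C
  rcases d_f13_2 with r_f13_2_0_0 | r_f13_2_1_0
  · rcases d_p11_33B with r_p11_33B_0_0 | r_p11_33B_1_0 | r_p11_33B_2_0 | r_p11_33B_3_0 | r_p11_33B_4_0
    · linarith only [r_p11_33B_0_0, e0]
    · linarith only [s1, r_p11_33B_1_0, b_o0, b_f11_0, b_f33_1, e0]
    · linarith only [s1, b_o0, r_p11_33B_2_0, b_f11_0]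
    · linarith only [b_o1, s2, b_f11_1, b_b3, r_p11_33B_3_0, b_f11_0]
    · rcases d_f33_8 with r_f33_8_0_0 | r_f33_8_1_0
      · linarith only [s2, r_p11_33B_4_0, s3, b_o1, b_b5, r_f33_8_0_0, b_f33_7, b_f11_2]
      · rcases d_p13_33A with r_p13_33A_0_0 | r_p13_33A_1_0 | r_p13_33A_2_0 | r_p13_33A_3_0 | r_p13_33A_4_0 | r_p13_33A_5_0
        · linarith only [r_p13_33A_0_0, b_o0, e0]
        · linarith only [s1, b_f11_2, b_b5, b_o0, b_b3, r_p13_33A_1_0, b_f11_1, b_f33_1, r_p11_33B_4_0, s3, e0]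
        · linarith only [s1, r_p13_33A_2_0, b_o0, b_f11_0, b_f33_1, e0]
        · linarith only [s1, b_f11_0, r_p13_33A_3_0, r_f13_2_0_0]
        · rcases d_f13_5 with r_f13_5_0_0 | r_f13_5_1_0
          · rcases d_tzpm with r_tzpm_0_0 | r_tzpm_1_0 | r_tzpm_2_0 | r_tzpm_3_0 | ⟨r_tzpm_4_0, r_tzpm_4_1⟩
            · linarith only [r_f13_5_0_0, s2, r_tzpm_0_0, r_p13_33A_4_0, b_b2, b_f11_0, b_f11_1, r_f13_2_0_0, b_b3]
            · linarith only [r_f13_5_0_0, r_tzpm_1_0, s2, s3, b_o0, r_p13_33A_4_0, b_b5, b_f11_0, b_f11_1, b_f11_2, r_f13_2_0_0, r_p11_33B_4_0, b_f33_7]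
            · linarith only [r_f13_5_0_0, s2, r_p13_33A_4_0, b_f11_0, b_f11_1, r_f13_2_0_0, r_tzpm_2_0, b_a3]
            · linarith only [r_f13_5_0_0, b_f11_2, s2, s3, b_o0, r_p13_33A_4_0, b_b5, b_f11_0, b_f11_1, r_tzpm_3_0, r_f13_2_0_0, r_p11_33B_4_0, b_f33_4, b_b3]
            · linarith only [s3, r_p11_33B_4_0, b_f33_7, r_tzpm_4_1]
          · linarith only [b_f11_2, s2, r_p11_33B_4_0, r_p13_33A_4_0, b_b5, b_f33_4, r_f13_5_1_0, r_f33_8_1_0]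
        · rcases d_f13_8 with r_f13_8_0_0 | r_f13_8_1_0
          · rcases d_f13_5 with r_f13_5_0_0 | r_f13_5_1_0
            · linarith only [r_f13_5_0_0, r_f13_8_0_0, s3, b_o0, r_p13_33A_5_0, b_f11_0, b_f11_1, b_f11_2, r_p11_33B_4_0, r_f13_2_0_0, b_f33_7]
            · linarith only [r_f13_8_0_0, s2, b_o1, s3, r_p11_33B_4_0, b_b5, r_p13_33A_5_0, b_f33_4, r_f13_5_1_0, b_f11_2]
          · linarith only [s3, r_p13_33A_5_0, r_f13_8_1_0, r_p11_33B_4_0]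
  · linarith only [s1, b_o2, b_f11_0, b_f13_0, b_f33_1, r_f13_2_1_0]

end Pool.Agent.Helper86.TQ
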