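import Pool.Agent.Helper89.TQ.Ctx

set_option autoImplicit false
set_option linter.all false

namespace Pool.Agent.Helper86.TQ

open Pool.Agent.Helper89.TQ

theorem c2_11_22_33_k3 {n1 n2 n3 A1 A2 A3 B1 B2 B3 m11_1 m11_2 m11_3 m12_1 m12_2 m12_3 m13_1 m13_2 m13_3 m22_1 m22_2 m22_3 m33_1 m33_2 m33_3 : ℤ}
    (C : Ctx2 n1 n2 n3 A1 A2 A3 B1 B2 B3 m11_1 m11_2 m11_3 m12_1 m12_2 m12_3 m13_1 m13_2 m13_3 m22_1 m22_2 m22_3 m33_1 m33_2 m33_3)
    (e0 : 0 < B1)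
    (e1 : 0 < A2)
    (e2 : 0 < A3)
    (s1 : 3 * A1 + 0 * B1 ≤ m11_1 + m22_1 + m33_1)
    (s2 : 3 * A2 + 0 * B2 ≤ m11_2 + m22_2 + m33_2)
    (s3 : 3 * A3 + 0 * B3 ≤ m11_3 + m22_3 + m33_3) : False := by
  have b_a2 : A1 ≤ A2 := by have h := C.a2; clear C; omega
  have b_a4 : A2 ≤ A3 := by have h := C.a4; clear C; omega
  have b_b3 : B2 ≤ B1 + n2 := by have h := C.b3; clear C; omega
  have b_o0 : B1 + 1 ≤ A1 := by have h := C.o0; clear C; omega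
  have b_o1 : A2 + 1 ≤ B2 := by have h := C.o1; clear C; omega
  have b_o2 : A3 + 1 ≤ B3 := by have h := C.o2; clear C; omega
  have b_f11_0 : m11_1 + 1 = B1 := by have h := C.f11_0; clear C; omega
  have b_f11_1 : m11_2 = m11_1 + n2 := by have h := C.f11_1; clear C; omega
  have b_f11_2 : m11_3 = m11_2 + n3 := by have h := C.f11_2; clear C; omega
  have b_f12_0 : m12_1 + 1 ≤ A1 := by have h := C.f12_0; clear C; omega
  have b_f12_4 : m12_2 + 1 ≤ B2 := by have h := C.f12_4; clear C; omega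
  have b_f12_6 : m12_3 = m12_2 + n3 := by have h := C.f12_6; clear C; omega
  have b_f13_0 : m13_1 + 1 ≤ A1 := by have h := C.f13_0; clear C; omega
  have b_f22_0 : m22_1 ≤ n1 := by have h := C.f22_0; clear C; omega
  have b_f22_1 : m22_1 + 1 ≤ A2 := by have h := C.f22_1; clear C; omega
  have b_f22_4 : m22_2 + 1 ≤ A2 := by have h := C.f22_4; clear C; omega
  have b_f22_6 : m22_3 = m22_2 + n3 := by have h := C.f22_6; clear C; omega
  have b_f33_0 : m33_1 ≤ n1 := by have h := C.f33_0; clear C; omega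
  have b_f33_1 : m33_1 + 1 ≤ A3 := by have h := C.f33_1; clear C; omega
  have b_f33_4 : m33_2 + 1 ≤ A3 := by have h := C.f33_4; clear C; omega
  have b_f33_7 : m33_3 + 1 ≤ A3 := by have h := C.f33_7; clear C; omega
  have d_f12_2 : (m12_1 + 1 = A1) ∨ (m12_1 + 1 = B2) := by have h := C.f12_2; clear C; omega
  have d_f12_5 : (m12_2 = m12_1 + n2) ∨ (m12_2 + 1 = B2) := by have h := C.f12_5; clear C; omega
  have d_f13_2 : (m13_1 + 1 = A1) ∨ (m13_1 + 1 = B3) := by have h := C.f13_2; clear C; omega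
  have d_f22_5 : (m22_2 = m22_1 + n2) ∨ (m22_2 + 1 = A2) := by have h := C.f22_5; clear C; omega
  have d_f33_2 : (m33_1 = n1) ∨ (m33_1 + 1 = A3) := by have h := C.f33_2; clear C; omega
  have d_f33_8 : (m33_3 = m33_2 + n3) ∨ (m33_3 + 1 = A3) := by have h := C.f33_8; clear C; omega
  have d_p11_33A : (B1 ≤ 0) ∨ (A3 ≤ 0) ∨ (m11_1 + m33_1 + 1 ≤ 2 * A1) ∨ (m11_2 + m33_2 + 1 ≤ 2 * A2) ∨ (m11_3 + m33_3 + 1 ≤ 2 * A3) := by have h := C.p11_33A; clear C; omega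
  have d_p12_22A : (A1 ≤ 0) ∨ (B2 ≤ 0) ∨ (A2 ≤ 0) ∨ (m12_1 + m22_1 + 1 ≤ 2 * A1) ∨ (m12_2 + m22_2 + 1 ≤ 2 * A2) ∨ (m12_3 + m22_3 + 1 ≤ 2 * A3) := by have h := C.p12_22A; clear C; omega
  have d_p12_33A : (A1 ≤ 0) ∨ (B2 ≤ 0) ∨ (A3 ≤ 0) ∨ (m12_1 + m33_1 + 1 ≤ 2 * A1) ∨ (m12_2 + m33_2 + 1 ≤ 2 * A2) ∨ (m12_3 + m33_3 + 1 ≤ 2 * A3) := by have h := C.p12_33A; clear C; omega
  have d_tmpp : (n1 ≤ A1) ∨ (A2 ≤ A1 + 1) ∨ (B1 ≤ 0) ∨ (B1 + n2 ≤ B2 + 1) := by have h := C.tmpp; clear C; omega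
  clear C
  rcases d_f12_2 with r_f12_2_0_0 | r_f12_2_1_0
  · rcases d_f12_5 with r_f12_5_0_0 | r_f12_5_1_0
    · linarith only [r_f12_5_0_0, b_o0, r_f12_2_0_0, b_b3, b_f12_4]
    · rcases d_f13_2 with r_f13_2_0_0 | r_f13_2_1_0
      · rcases d_p11_33A with r_p11_33A_0_0 | r_p11_33A_1_0 | r_p11_33A_2_0 | r_p11_33A_3_0 | r_p11_33A_4_0
        · linarith only [r_p11_33A_0_0, e0]
        · linarith only [s1, r_p11_33A_1_0, b_o0, b_f11_0, b_a4, b_f33_1, b_f22_1, e0]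
        · rcases d_f22_5 with r_f22_5_0_0 | r_f22_5_1_0
          · linarith only [r_f22_5_0_0, s1, b_o1, b_o0, b_b3, b_f22_4, r_p11_33A_2_0]
          · rcases d_tmpp with r_tmpp_0_0 | r_tmpp_1_0 | r_tmpp_2_0 | r_tmpp_3_0
            · linarith only [r_tmpp_0_0, s1, b_o0, b_f11_0, b_f33_0, b_f22_0]
            · linarith only [s1, r_p11_33A_2_0, b_f22_1, r_tmpp_1_0]
            · linarith only [r_tmpp_2_0, e0]
            · rcases d_p12_22A with r_p12_22A_0_0 | r_p12_22A_1_0 | r_p12_22A_2_0 | r_p12_22A_3_0 | r_p12_22A_4_0 | r_p12_22A_5_0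
              · linarith only [r_p12_22A_0_0, b_o0, e0]
              · linarith only [s1, b_o1, b_o0, r_p12_22A_1_0, r_p11_33A_2_0, b_f22_1, e0]
              · linarith only [s1, r_p12_22A_2_0, b_o0, r_p11_33A_2_0, b_f22_1, e0]
              · linarith only [s1, r_p11_33A_2_0, r_f12_2_0_0, r_p12_22A_3_0]
              · rcases d_f33_8 with r_f33_8_0_0 | r_f33_8_1_0
                · linarith only [r_tmpp_3_0, b_f11_1, s3, r_f33_8_0_0, b_f11_0, r_p12_22A_4_0, r_f12_5_1_0, b_f22_6, s2, b_f33_7, b_f11_2]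
                · rcases d_p12_33A with r_p12_33A_0_0 | r_p12_33A_1_0 | r_p12_33A_2_0 | r_p12_33A_3_0 | r_p12_33A_4_0 | r_p12_33A_5_0
                  · linarith only [r_p12_33A_0_0, b_o0, e0]
                  · linarith only [s1, b_o1, b_o0, r_p12_33A_1_0, r_p11_33A_2_0, b_f22_1, e0]
                  · linarith only [r_tmpp_3_0, s1, s2, r_p12_33A_2_0, b_o0, r_f12_5_1_0, b_f11_0, r_p12_22A_4_0, b_f11_1, b_f33_1, b_f33_4, b_f22_1, e0]
                  · rcases d_f33_2 with r_f33_2_0_0 | r_f33_2_1_0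
                    · linarith only [r_f33_2_0_0, s1, b_o0, b_f11_0, r_p12_33A_3_0, r_f12_2_0_0, b_f22_0]
                    · linarith only [r_p12_22A_4_0, s1, r_f33_2_1_0, b_o0, r_f12_5_1_0, b_f11_0, r_p12_33A_3_0, b_f11_1, b_f22_1, s2, r_f12_2_0_0, b_f33_4, r_tmpp_3_0]
                  · linarith only [r_tmpp_3_0, b_f11_0, r_p12_33A_4_0, s2, b_f22_4, r_f12_5_1_0, b_f11_1]
                  · linarith only [r_tmpp_3_0, b_o1, s3, b_f11_0, r_p12_33A_5_0, b_f22_6, b_f12_6, b_f11_2, b_f22_4, r_f12_5_1_0, b_f11_1, r_f33_8_1_0]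
              · linarith only [r_tmpp_3_0, b_f33_7, s3, r_f12_5_1_0, b_f11_0, b_f12_6, r_p12_22A_5_0, b_f11_1, b_f11_2]
        · linarith only [r_p11_33A_3_0, b_f22_4, s2]
        · rcases d_f33_8 with r_f33_8_0_0 | r_f33_8_1_0
          · linarith only [b_f11_2, s3, b_f22_6, r_p11_33A_4_0, b_f22_4, r_f33_8_0_0, s2]
          · linarith only [b_f11_1, b_f11_2, s3, b_b3, b_f22_6, b_f22_4, b_o1, b_f11_0, r_p11_33A_4_0, r_f33_8_1_0]
      · linarith only [s1, b_o2, b_o0, r_f13_2_1_0, b_f11_0, b_f13_0, b_f22_1, b_f33_1, b_a4]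
  · linarith only [b_o1, r_f12_2_1_0, b_f12_0, b_a2]

end Pool.Agent.Helper86.TQ
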